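import Mathlib
import Pool.Agent.Lib.MP_fc64da_nt.Q.QuadF

set_option autoImplicit false

open NumberField

namespace Pool.Agent.Results.MP_fc64da_nt.QuadraticFamilies

theorem result :
    ∀ ε : ℝ, 0 < ε → ∃ C : ℝ, ∀ (X : ℕ), 1 ≤ X → ∀ A B G : ℤ, A ≠ 0 →
      ∀ (m : ℕ) (K : Fin m → Type) [∀ i, Field (K i)] [∀ i, NumberField (K i)],
        (∀ i, Module.finrank ℚ (K i) = 3) →
        (∀ i, |discr (K i)| ≤ X ∧ ∃ n : ℤ, discr (K i) = A * n ^ 2 + B * n + G) →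
        (∀ i j, Nonempty (K i ≃+* K j) → i = j) →
        (m : ℝ) ≤ C * (X : ℝ) ^ (3 / 4 + ε) := by
  intro ε hε
  obtain ⟨C, -, h⟩ := FQ.part_quad ε hε
  exact ⟨C, fun X hX A B G hA m K _ _ h3 hD hiso =>
    h X hX A B G hA m K h3 (fun i => ⟨(hD i).2, (hD i).1⟩) hiso⟩

end Pool.Agent.Results.MP_fc64da_nt.QuadraticFamilies
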